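import Pool.Agent.Helper63_PSS.BKF
import Pool.Agent.Helper20_PSS.FPX
import Pool.Agent.Helper92_PSS.FCO
import Pool.Agent.Helper77_PSS.FBK
import Pool.Agent.Helper6_PSS.BKI
import Pool.Agent.Helper10_PSS.RFD
import Pool.Agent.Helper95_PSS.IND
import Pool.Agent.Helper80_PSS.ZRT
import Pool.Agent.Helper5_PSS.TRS
import Pool.Agent.Helper41_PSS.RFO
import Pool.Agent.Helper70_PSS.BQX
import Pool.Agent.Helper21_PSS.LMB
import Pool.Agent.Helper70_PSS.SFQ
import Pool.Agent.Helper64_PSS.MCK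
import Pool.Agent.Helper65_PSS.BPU
import Pool.Agent.Helper62_PSS.BBK
import Pool.Agent.Helper84_PSS.BCL
import Pool.Agent.Helper85_PSS.ORB
import Pool.Agent.Helper52_PSS.FRB
import Pool.Agent.Helper56_PSS.RFU
import Pool.Agent.Helper40_PSS.DFR
import Pool.Agent.Helper21_PSS.DRF
import Pool.Agent.Helper29_PSS.QOR
import Pool.Agent.Helper45_PSS.NFR
import Pool.Agent.Helper79_PSS.NFP
import Pool.Agent.Helper20_PSS.NFD

/-!
# Squad PSS, block S5 (helper18): the rows of the blocks S0 and S4 without hypotheses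
-/

noncomputable section

namespace Pool.Agent.PSS.S5.H18

theorem bkf_ : S0.BkfStmt := S0.H63.bkf

theorem fpx_ : S0.FpxStmt := H20.fpx

theorem fco_ : S0.FcoStmt := S0.H92.fco

theorem fbk_ : S0.FbkStmt := S0.H77.fbk fpx_

theorem bki_ : S0.BkiStmt := S0.H6.bki

theorem rfd_ : S0.RfdStmt := S0.H10.rfd

theorem ind_ : S0.IndStmt := S0.H95.ind

theorem zrt_ : S0.ZrtStmt := S0.H80.zrt

theorem trs_ : S0.TrsStmt := S0.H5.trs

theorem rfo_ : S0.RfoStmt := S0.H41.rfo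

theorem bqx_ : S0.BqxStmt := S0.H70.bqx

theorem lmb_ : S0.LmbStmt := H21.LMB.lmb

theorem sfq_ : S0.SfqStmt := S0.H70.sfq

theorem mck_ : S0.MckStmt := H64.mck rfd_ ind_ rfo_ sfq_ fpx_

theorem bpu_ : S0.BpuStmt := H65.bpu sfq_ lmb_ rfd_ rfo_

theorem bbk_ : S0.BbkStmt := S0.H62.bbk fco_ fbk_ sfq_ lmb_ rfd_

theorem bcl_ : S0.BclStmt := S0.H84.bcl mck_ bpu_ bbk_

theorem orb_ : OrbStmt := H85.orb

theorem frb_ : FrbStmt := H52.frb orb_

theorem rfu_ : RfuStmt := H56.rfu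

theorem dfr_ : DfrStmt := H40.dfr

theorem drf_ : DrfStmt := H21.DRF.drf

theorem qor_ : QorStmt := H29.qor orb_

theorem nfr_ : NfrStmt := H45.nfr frb_

theorem nfp_ : NfpStmt := H79.nfp nfr_

theorem nfd_ : NfdStmt := H20.nfd frb_

end Pool.Agent.PSS.S5.H18
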