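import Pool.Agent.PSS.StmtsS5

/-!
# Squad PSS, block S5, row BAS (helper18): the base case
-/

open scoped BigOperators TensorProduct

noncomputable section

namespace Pool.Agent.PSS.S5.H18

theorem bas (rdl : RdlStmt) (lkn : LknStmt) (lnw : LnwStmt) (von : VonStmt) (frc : FrcStmt) :
    BasStmt := by
  intro ℓ _ F V E A B _ _ _ _ _ _ _ _ _ _ _ φ α hp hE hVF hA N
  rcases hVF with hV | hF
  · exact von F V A B α hV N
  · refine rdl ℓ F V E A B φ α ⊤ hp hE (fun e w _ => Subgroup.mem_top _) hA N ?_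
    intro E' Y Y' _ _ _ _ αY hE' hL N'
    obtain ⟨W, hW⟩ := frc ℓ V E φ E' hp hE hF hE'
    have h1 := lkn ℓ F V E' Y E'.subtype αY W hW hL
    have h2 := lnw ℓ F V E' Y Y' E'.subtype αY ⊤ N' hp (fun e w _ => Subgroup.mem_top _) hL
    have h3 := lkn ℓ F V E' Y' E'.subtype N'.nwh W hW h2
    rw [h1, h3]

end Pool.Agent.PSS.S5.H18
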