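import Pool.Agent.PSS.StmtsS5
import Pool.Agent.PFC.B4.Psx_h10

/-!
# Squad PSS, block S5, row CLJ (helper18): the corner is in the class of local algebras
-/

open scoped BigOperators TensorProduct

noncomputable section

namespace Pool.Agent.PSS.S5.H18

open Pool.Agent.PFC (tw IsTv Cnr Cz PIn Ctf Lcq PmzStmt PS bi PsxStmt)
open Pool.Agent.PFD.D2b (FrR)

section theta

variable {F V A Y : Type} [Field F] [CommGroup V] [Ring A] [Algebra F A] [Ring Y] [Algebra F Y]
  {α : V →* A} {j : A} {αY : V →* Y} {κ : Y →ₗ[F] A}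

theorem cor_id (h : CorV F α j αY κ) : j * j = j := by
  rw [← h.one, ← h.mul, mul_one]

theorem cor_l (h : CorV F α j αY κ) (y : Y) : j * κ y = κ y := by
  rw [← h.one, ← h.mul, one_mul]

theorem cor_r (h : CorV F α j αY κ) (y : Y) : κ y * j = κ y := by
  rw [← h.one, ← h.mul, mul_one]

/-- the projection of `A` onto the corner -/
theorem exists_theta (h : CorV F α j αY κ) :
    ∃ θ : A →ₗ[F] Y, (∀ a, κ (θ a) = j * a * j) ∧ ∀ y, θ (κ y) = y := by
  have hid := cor_id h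
  let L : A →ₗ[F] A := (LinearMap.mulLeft F j).comp (LinearMap.mulRight F j)
  have hL : ∀ a, L a = j * a * j := by
    intro a
    change j * (a * j) = j * a * j
    rw [mul_assoc]
  have hr : ∀ a, L a ∈ LinearMap.range κ := by
    intro a
    obtain ⟨b, hb⟩ := h.ran (L a) (by rw [hL, ← mul_assoc, ← mul_assoc, hid])
      (by rw [hL, mul_assoc, hid])
    exact ⟨b, hb⟩
  let e := LinearEquiv.ofInjective κ h.inj
  let θ : A →ₗ[F] Y := e.symm.toLinearMap.comp (L.codRestrict (LinearMap.range κ) hr)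
  have h1 : ∀ a, κ (θ a) = j * a * j := by
    intro a
    have h2 : e (θ a) = L.codRestrict (LinearMap.range κ) hr a := by
      change e (e.symm _) = _
      rw [LinearEquiv.apply_symm_apply]
    have h3 := congrArg Subtype.val h2
    rw [LinearEquiv.ofInjective_apply, LinearMap.codRestrict_apply, hL] at h3
    exact h3
  refine ⟨θ, h1, fun y => h.inj ?_⟩
  rw [h1, cor_l h, cor_r h]

theorem kap_bw (hj : ∀ v, α v * j = j * α v) (h : CorV F α j αY κ) (u v : V) (y : Y) :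
    κ (bw F αY (u, v) y) = bw F α (u, v) (κ y) := by
  change κ (αY u * (y * αY v⁻¹)) = α u * (κ y * α v⁻¹)
  rw [h.mul, h.mul, h.cov, h.cov, ← mul_assoc (κ y), ← mul_assoc, ← mul_assoc]
  rw [mul_assoc (α u) j (κ y), cor_l h, mul_assoc _ (α v⁻¹) j, hj v⁻¹, ← mul_assoc,
    mul_assoc (α u) (κ y) j, cor_r h, mul_assoc]

theorem th_bw (hj : ∀ v, α v * j = j * α v) (h : CorV F α j αY κ) {θ : A →ₗ[F] Y}
    (h1 : ∀ a, κ (θ a) = j * a * j) (u v : V) (a : A) :
    θ (bw F α (u, v) a) = bw F αY (u, v) (θ a) := by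
  apply h.inj
  rw [h1, kap_bw hj h, h1]
  change j * (α u * (a * α v⁻¹)) * j = α u * (j * a * j * α v⁻¹)
  rw [← mul_assoc j, ← hj u, mul_assoc (α u * j), mul_assoc a, hj v⁻¹]
  simp only [mul_assoc]

end theta

theorem prod_pgroup {ℓ : ℕ} {V : Type} [CommGroup V] (h : IsPGroup ℓ V) : IsPGroup ℓ (V × V) := by
  rintro ⟨u, v⟩
  obtain ⟨m, hm⟩ := h u
  obtain ⟨n, hn⟩ := h v
  refine ⟨m + n, ?_⟩
  rw [Prod.pow_mk, pow_add, pow_mul, hm, one_pow, mul_comm, pow_mul, hn, one_pow]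
  rfl

theorem tw_congr {V : Type} [CommGroup V] {s t : V →* V} {S : Subgroup V}
    (h : ∀ x ∈ S, s x = t x) : tw s S = tw t S := by
  apply le_antisymm
  · rintro _ ⟨x, hx, rfl⟩
    refine ⟨x, hx, ?_⟩
    change (t x, x) = (s x, x)
    rw [h x hx]
  · rintro _ ⟨x, hx, rfl⟩
    refine ⟨x, hx, ?_⟩
    change (s x, x) = (t x, x)
    rw [h x hx]

theorem clj (stb : StbStmt) (tpj : TpjStmt) (rfj : RfjStmt) : CljStmt := by
  intro ℓ _ F V E A Y _ _ _ _ _ _ _ _ _ _ _ φ α j αY κ hp hE hA hj hY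
  have hfA : FiniteDimensional F A := hA.fin
  have hfY : FiniteDimensional F Y := Module.Finite.of_injective κ hY.inj
  have hjv : ∀ v, α v * j = j * α v := fun v => mem_cw.1 hj.fx v (Subgroup.mem_top v)
  obtain ⟨θ, hθ, hθκ⟩ := exists_theta hY
  have hmem : ∀ y : Y, y ∈ FxR (cw F αY) ⊤ → κ y ∈ FxR (cw F α) ⊤ := by
    intro y hy v hv
    have h1 := hy v hv
    change bw F α (v, v) (κ y) = κ y
    rw [← kap_bw hjv hY]
    exact congrArg κ h1
  have hmemθ : ∀ a : A, a ∈ FxR (cw F α) ⊤ → θ a ∈ FxR (cw F αY) ⊤ := by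
    intro a ha
    exact FxR_hom (ρ := cw F α) (ρ' := cw F αY) (L := θ) (fun v m => th_bw hjv hY hθ v v m) ha
  obtain ⟨lam, K, _, x, y, hRF, u, hu⟩ := hA.rt
  obtain ⟨htp, hlam⟩ := tpj ℓ F V E A K φ α lam x y u j hp hE hA hRF hu hj
  refine ⟨hfY, ?_, ?_, ?_, ?_, ?_⟩
  · -- per
    obtain ⟨Ω, i1, i2, b, c, hf, hs⟩ := hA.per
    have hPS : PS (fun K => ∃ (e : E) (S : Subgroup V), K = tw (φ e).toMonoidHom S)
        (bi F αY) := by
      refine ⟨Ω, i1, i2, fun ω => θ (b ω), fun ω => (c ω).comp κ, ⟨?_, ?_, ?_⟩, fun ω => hs ω⟩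
      · rintro ⟨u, v⟩ ω
        change θ (b ((u, v) • ω)) = bw F αY (u, v) (θ (b ω))
        rw [hf.1, th_bw hjv hY hθ]
      · rintro ⟨u, v⟩ ω m
        change c ((u, v) • ω) (κ (bw F αY (u, v) m)) = c ω (κ m)
        rw [kap_bw hjv hY, hf.2.1]
      · intro m
        change ∑ ω, c ω (κ m) • θ (b ω) = m
        have h1 := congrArg θ (hf.2.2 (κ m))
        rw [map_sum, hθκ] at h1
        calc ∑ ω, c ω (κ m) • θ (b ω) = ∑ ω, θ (c ω (κ m) • b ω) :=
              Finset.sum_congr rfl fun ω _ => (map_smul θ _ _).symm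
          _ = m := h1
    obtain ⟨Ω', i1', i2', b', c', hf', hs'⟩ := PFC.H10.psx ℓ F (V × V) Y (bi F αY) _
      (prod_pgroup hp) (fun x y => mul_comm x y) hPS
    refine ⟨Ω', i1', i2', b', c', hf', fun ω => ?_⟩
    obtain ⟨⟨e, S, hS⟩, hn⟩ := hs' ω
    rw [hS] at hn
    obtain ⟨σ, hσ, hσS⟩ := stb ℓ F V E A Y φ α j αY κ hp hE hA hj hY e S hn
    refine ⟨⟨σ, hσ⟩, S, ?_⟩
    rw [hS]
    exact tw_congr fun x hx => (hσS x hx).symm
  · -- uni
    rintro ⟨σ, hσ⟩
    exact hσ.2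
  · -- frm
    obtain ⟨K', i1, x', y', h1⟩ := rfj F V E A Y K φ α lam x y j αY κ hA.per hRF hj.id hj.fx hY
    refine ⟨lam.comp κ, K', i1, x', y', h1, ?_⟩
    rw [LinearMap.comp_apply, map_sum]
    have h2 : ∑ v, κ (αY v) = (∑ v, α v) * j := by
      rw [Finset.sum_mul]
      exact Finset.sum_congr rfl fun v _ => hY.cov v
    rw [h2]
    exact hlam
  · -- loc
    have hnt : Nontrivial Y := by
      refine ⟨0, 1, fun h => ?_⟩
      have h1 := congrArg κ h
      rw [map_zero, hY.one] at h1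
      exact hj.nz (h1 ▸ Submodule.zero_mem _)
    have hz : ∀ z : Cz F αY ⊤, (z : Y) ∈ FxR (cw F αY) ⊤ := by
      intro z
      rw [mem_cw]
      intro q hq
      have h1 : (z : Y) ∈ Subalgebra.centralizer F (αY '' ((⊤ : Subgroup V) : Set V)) := z.2
      rw [Subalgebra.mem_centralizer_iff] at h1
      exact h1 _ ⟨q, hq, rfl⟩
    have hz' : ∀ y : Y, y ∈ FxR (cw F αY) ⊤ → y ∈ Cz F αY ⊤ := by
      intro y hy
      change y ∈ Subalgebra.centralizer F (αY '' ((⊤ : Subgroup V) : Set V))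
      rw [Subalgebra.mem_centralizer_iff]
      rintro _ ⟨q, hq, rfl⟩
      exact mem_cw.1 hy q hq
    have key : ∀ z : Cz F αY ⊤, IsNilpotent z ∨ IsUnit z := by
      intro z
      have hkz : j * κ (z : Y) * j = κ (z : Y) := by
        rw [cor_l hY, cor_r hY]
      rcases hj.loc (κ (z : Y)) (hmem _ (hz z)) with h1 | ⟨w, hw, h1, h2⟩
      · left
        rw [hkz] at h1
        obtain ⟨n, hn⟩ := h1
        refine ⟨n + 1, ?_⟩
        apply Subtype.ext
        apply hY.inj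
        have hpow : ∀ m : ℕ, κ ((z : Y) ^ (m + 1)) = κ (z : Y) ^ (m + 1) := by
          intro m
          induction m with
          | zero => rw [zero_add, pow_one, pow_one]
          | succ m ih => rw [pow_succ, hY.mul, ih, ← pow_succ]
        change κ (((z ^ (n + 1) : Cz F αY ⊤) : Y)) = κ ((0 : Cz F αY ⊤) : Y)
        rw [SubmonoidClass.coe_pow, hpow, pow_succ, hn, zero_mul]
        exact (map_zero κ).symm
      · right
        rw [hkz] at h1 h2
        have e1 : (z : Y) * θ w = 1 := by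
          apply hY.inj
          rw [hY.mul, hθ, h1, hY.one]
        have e2 : θ w * (z : Y) = 1 := by
          apply hY.inj
          rw [hY.mul, hθ, h2, hY.one]
        exact ⟨⟨z, ⟨θ w, hz' _ (hmemθ w hw)⟩, Subtype.ext e1, Subtype.ext e2⟩, rfl⟩
    have hnt2 : Nontrivial (Cz F αY ⊤) := by
      refine ⟨0, 1, fun h => ?_⟩
      exact zero_ne_one (congrArg Subtype.val h)
    refine IsLocalRing.of_isUnit_or_isUnit_one_sub_self fun z => ?_
    rcases key z with h1 | h1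
    · right
      exact h1.isUnit_one_sub
    · left
      exact h1
  · -- spn
    intro a ha
    obtain ⟨c, hc⟩ := htp (κ a) (hmem a ha)
    refine ⟨c, ?_⟩
    have h1 : θ (j * κ a * j - ∑ v, c v • (α v * j)) ∈ BKR (cw F αY) ⊤ :=
      BKR_hom (ρ := cw F α) (ρ' := cw F αY) (L := θ) (fun v m => th_bw hjv hY hθ v v m) hc
    rw [cor_l hY, cor_r hY, map_sub, hθκ, map_sum] at h1
    have h2 : ∀ v, θ (c v • (α v * j)) = c v • αY v := by
      intro v
      rw [map_smul, ← hY.cov, hθκ]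
    rw [Finset.sum_congr rfl fun v _ => h2 v] at h1
    exact h1

end Pool.Agent.PSS.S5.H18
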