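import Pool.Agent.Helper18_PSS.CLJ

/-!
# Squad PSS, block S5, row CNW (helper18): `N_W` of a corner
-/

open scoped BigOperators TensorProduct

noncomputable section

namespace Pool.Agent.PSS.S5.H18

open Pool.Agent.PFC (tw IsTv Cnr Cz PIn Ctf Lcq PmzStmt PS bi PsxStmt)

section cnr

variable {F A Y : Type} [Field F] [Ring A] [Algebra F A] [Ring Y] [Algebra F Y]
  {j : A} {κ : Y →ₗ[F] A}

theorem cnr_id (h : Cnr j κ) : j * j = j := by
  rw [← h.one, ← h.mul, mul_one]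

theorem cnr_l (h : Cnr j κ) (y : Y) : j * κ y = κ y := by
  rw [← h.one, ← h.mul, one_mul]

theorem cnr_r (h : Cnr j κ) (y : Y) : κ y * j = κ y := by
  rw [← h.one, ← h.mul, mul_one]

/-- the projection of `A` onto the corner -/
theorem cnr_theta (h : Cnr j κ) :
    ∃ θ : A →ₗ[F] Y, (∀ a, κ (θ a) = j * a * j) ∧ ∀ y, θ (κ y) = y := by
  have hid := cnr_id h
  let L : A →ₗ[F] A := (LinearMap.mulLeft F j).comp (LinearMap.mulRight F j)
  have hL : ∀ a, L a = j * a * j := by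
    intro a
    change j * (a * j) = j * a * j
    rw [mul_assoc]
  have hr : ∀ a, L a ∈ LinearMap.range κ := by
    intro a
    obtain ⟨b, hb⟩ := h.ran (L a) (by rw [hL, ← mul_assoc, ← mul_assoc, hid])
      (by rw [hL, mul_assoc, hid])
    exact ⟨b, hb⟩
  let e := LinearEquiv.ofInjective κ h.inj
  let θ : A →ₗ[F] Y := e.symm.toLinearMap.comp (L.codRestrict (LinearMap.range κ) hr)
  have h1 : ∀ a, κ (θ a) = j * a * j := by
    intro a
    have h2 : e (θ a) = L.codRestrict (LinearMap.range κ) hr a := by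
      change e (e.symm _) = _
      rw [LinearEquiv.apply_symm_apply]
    have h3 := congrArg Subtype.val h2
    rw [LinearEquiv.ofInjective_apply, LinearMap.codRestrict_apply, hL] at h3
    exact h3
  refine ⟨θ, h1, fun y => h.inj ?_⟩
  rw [h1, cnr_l h, cnr_r h]

end cnr

theorem cnw : CnwStmt := by
  intro F V A B Y Y' _ _ _ _ _ _ _ _ _ _ _ α W N j αY κ κ' hid hj hY hY'
  have hfinW : Finite (MulAut W) :=
    Finite.of_injective (fun f => (f : W → W)) DFunLike.coe_injective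
  have hFW : Fintype (MulAut W) := Fintype.ofFinite _
  have hjv : ∀ v, α v * j = j * α v := fun v => mem_cw.1 hj v (Subgroup.mem_top v)
  obtain ⟨θ, hθ, hθκ⟩ := exists_theta hY
  obtain ⟨θ', hθ', hθκ'⟩ := cnr_theta hY'
  have hj1 : j ∈ FxR (bw F α) (twW W (1 : MulAut W)) := by
    rw [mem_tw]
    intro w
    rw [MulAut.one_apply]
    exact hjv w
  have hk : ∀ (h : V × V) (m : Y), κ (bw F αY h m) = bw F α h (κ m) :=
    fun h m => kap_bw hjv hY h.1 h.2 m
  have ht : ∀ (h : V × V) (m : A), θ (bw F α h m) = bw F αY h (θ m) :=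
    fun h m => th_bw hjv hY hθ h.1 h.2 m
  have hmem : ∀ ε : MulAut W, ∀ a ∈ FxR (bw F αY) (twW W ε), κ a ∈ FxR (bw F α) (twW W ε) :=
    fun ε a ha => FxR_hom (L := κ) hk ha
  have hmemθ : ∀ ε : MulAut W, ∀ a ∈ FxR (bw F α) (twW W ε), θ a ∈ FxR (bw F αY) (twW W ε) :=
    fun ε a ha => FxR_hom (L := θ) ht ha
  have hl : ∀ ε : MulAut W, ∀ a ∈ FxR (bw F α) (twW W ε),
      N.β ε (j * a) = N.β 1 j * N.β ε a := by
    intro ε a ha
    have h1 := N.mul 1 ε j hj1 a ha
    rw [one_mul] at h1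
    exact h1
  have hr : ∀ ε : MulAut W, ∀ a ∈ FxR (bw F α) (twW W ε),
      N.β ε (a * j) = N.β ε a * N.β 1 j := by
    intro ε a ha
    have h1 := N.mul ε 1 a ha j hj1
    rw [mul_one] at h1
    exact h1
  -- the value of `κ'`
  have hval : ∀ ε : MulAut W, ∀ a ∈ FxR (bw F αY) (twW W ε),
      κ' (θ' (N.β ε (κ a))) = N.β ε (κ a) := by
    intro ε a ha
    have h1 := hmem ε a ha
    rw [hθ', ← hl ε _ h1, cor_l hY, ← hr ε _ h1, cor_r hY]
  refine ⟨⟨fun ε => θ'.comp ((N.β ε).comp κ), ?_, ?_, ?_, ?_, ?_⟩⟩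
  · -- one
    apply hY'.inj
    change κ' (θ' (N.β 1 (κ 1))) = κ' 1
    rw [hθ', hY.one, hY'.one, cnr_id hY', cnr_id hY']
  · -- mul
    intro ε δ a ha b hb
    apply hY'.inj
    change κ' (θ' (N.β (ε * δ) (κ (a * b)))) = κ' (θ' (N.β ε (κ a)) * θ' (N.β δ (κ b)))
    rw [hval _ _ (Fx_mul αY W ε δ ha hb), hY'.mul, hval _ _ ha, hval _ _ hb, hY.mul,
      N.mul ε δ _ (hmem ε a ha) _ (hmem δ b hb)]
  · -- ker
    intro ε a ha
    change θ' (N.β ε (κ a)) = 0 ↔ _
    constructor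
    · intro h
      have h1 : N.β ε (κ a) = 0 := by
        rw [← hval ε a ha, h, map_zero]
      have h2 := (N.ker ε (κ a) (hmem ε a ha)).1 h1
      have h3 := BKR_hom (L := θ) ht h2
      rw [hθκ] at h3
      exact h3
    · intro h
      have h2 := BKR_hom (L := κ) hk h
      rw [(N.ker ε (κ a) (hmem ε a ha)).2 h2, map_zero]
  · -- ind
    intro f hf h ε
    have h1 : ∑ᶠ ε, N.β ε ((fun ε => κ (f ε)) ε) = 0 := by
      rw [finsum_eq_sum_of_fintype]
      rw [finsum_eq_sum_of_fintype] at h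
      have h2 := congrArg κ' h
      rw [map_sum, map_zero] at h2
      rw [← h2]
      refine Finset.sum_congr rfl fun ε _ => ?_
      exact (hval ε (f ε) (hf ε)).symm
    have h3 := N.ind (fun ε => κ (f ε)) (fun ε => hmem ε _ (hf ε)) h1 ε
    change θ' (N.β ε (κ (f ε))) = 0
    rw [h3, map_zero]
  · -- spn
    intro b
    obtain ⟨f, hf, hb⟩ := N.spn (κ' b)
    refine ⟨fun ε => θ (f ε), fun ε => hmemθ ε _ (hf ε), ?_⟩
    apply hY'.inj
    rw [finsum_eq_sum_of_fintype] at hb ⊢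
    rw [map_sum]
    have h1 : ∀ ε, κ' ((θ'.comp ((N.β ε).comp κ)) (θ (f ε))) =
        N.β 1 j * N.β ε (f ε) * N.β 1 j := by
      intro ε
      change κ' (θ' (N.β ε (κ (θ (f ε))))) = _
      have h2 : j * f ε ∈ FxR (bw F α) (twW W ε) := by
        have h3 := Fx_mul α W 1 ε hj1 (hf ε)
        rw [one_mul] at h3
        exact h3
      rw [hval ε _ (hmemθ ε _ (hf ε)), hθ, hr ε _ h2, hl ε _ (hf ε)]
    rw [Finset.sum_congr rfl fun ε _ => h1 ε, ← Finset.sum_mul, ← Finset.mul_sum, hb,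
      cnr_l hY', cnr_r hY']

end Pool.Agent.PSS.S5.H18
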