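import Pool.Agent.Helper18_PSS.AllS0
import Pool.Agent.PSS.StmtsS5
import Pool.Agent.Helper41_PFC.DIM

/-!
# Squad PSS, block S5, row NDL (helper18)
-/

open scoped BigOperators TensorProduct

noncomputable section

namespace Pool.Agent.PSS.S5.H18

open Pool.Agent.PFC (tw IsTv)
open Pool.Agent.PFD.D2b (FrR)

theorem tw_one_mem {V : Type} [CommGroup V] {S : Subgroup V} {u v : V} :
    (u, v) ∈ tw (MonoidHom.id V) S ↔ u = v ∧ v ∈ S := by
  constructor
  · rintro ⟨x, hx, h⟩
    have h1 : (x, x) = (u, v) := h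
    rw [Prod.mk.injEq] at h1
    rw [← h1.1, ← h1.2]
    exact ⟨rfl, hx⟩
  · rintro ⟨rfl, h⟩
    exact ⟨u, h, rfl⟩

theorem ndl : NdlStmt := by
  intro ℓ _ F V E A _ _ _ _ _ _ _ φ α hp hφ hA L hL
  classical
  obtain ⟨lam, K, _, x, y, hRF, hlam⟩ := hA.frm
  have hℓ : (ℓ : F) = 0 := CharP.cast_eq_zero F ℓ
  obtain ⟨Ω, i1, i2, b, c, hf, hs0⟩ := hA.per
  have hs : ∀ ω : Ω, ∃ S : Subgroup V,
      MulAction.stabilizer (V × V) ω = tw (MonoidHom.id V) S := by
    intro ω
    obtain ⟨e, S, h⟩ := hs0 ω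
    refine ⟨S, ?_⟩
    rw [h, hφ e]
    rfl
  have hfree : ∀ (v : V) (ω : Ω), ((1, v) : V × V) • ω = ω → v = 1 := by
    intro v ω h
    obtain ⟨S, hS⟩ := hs ω
    have h1 : ((1, v) : V × V) ∈ MulAction.stabilizer (V × V) ω := h
    rw [hS, tw_one_mem] at h1
    exact h1.1.symm
  set σ : A := ∑ v, α v with hσ
  have hvσ : ∀ v, α v * σ = σ := by
    intro v
    rw [hσ, Finset.mul_sum]
    refine (Fintype.sum_equiv (Equiv.mulLeft v) _ _ fun u => ?_)
    change α v * α u = α (v * u)
    rw [map_mul]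
  have hσv : ∀ v, σ * α v = σ := by
    intro v
    rw [hσ, Finset.sum_mul]
    refine (Fintype.sum_equiv (Equiv.mulRight v) _ _ fun u => ?_)
    change α u * α v = α (u * v)
    rw [map_mul]
  have hmemσ : ∀ a : A, a * σ ∈ L := by
    intro a
    rw [hL]
    intro v
    rw [mul_assoc, hσv]
  have hmul : ∀ (a : A), ∀ l ∈ L, a * l ∈ L := by
    intro a l hl
    rw [hL] at hl ⊢
    intro v
    rw [mul_assoc, hl v]
  -- the representation on `L`
  let ρ : V →* (L →ₗ[F] L) :=
    { toFun := fun u =>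
        { toFun := fun l => ⟨α u * l, hmul _ _ l.2⟩
          map_add' := fun a b => Subtype.ext (mul_add _ _ _)
          map_smul' := fun t a => Subtype.ext (mul_smul_comm _ _ _) }
      map_one' := by
        ext l
        change α 1 * (l : A) = l
        rw [map_one, one_mul]
      map_mul' := fun u v => by
        ext l
        change α (u * v) * (l : A) = α u * (α v * l)
        rw [map_mul, mul_assoc] }
  have hρ : ∀ u l, ((ρ u l : L) : A) = α u * l := fun u l => rfl
  let actV : MulAction V (Qt (V := V) Ω) := MulAction.compHom _ (MonoidHom.inl V V)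
  have hact : ∀ (u : V) (k : Qt (V := V) Ω), u • k = ((u, 1) : V × V) • k := fun u k => rfl
  have hcv : ∀ (v : V) (ω : Ω), ∀ l ∈ L, c (((1, v) : V × V) • ω) l = c ω l := by
    intro v ω l hl
    have h1 := hf.2.1 ((1, v) : V × V) ω l
    have h2 : bw F α (1, v) l = l := by
      change α 1 * (l * α v⁻¹) = l
      rw [map_one, one_mul]
      exact (hL l).1 hl v⁻¹
    rw [h2] at h1
    exact h1
  have hbσ : ∀ (v : V) (ω : Ω), b (((1, v) : V × V) • ω) * σ = b ω * σ := by
    intro v ω
    rw [hf.1]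
    change α 1 * (b ω * α v⁻¹) * σ = b ω * σ
    rw [map_one, one_mul, mul_assoc, hvσ]
  let b' : Qt (V := V) Ω → L := fun k => ⟨b k.rep * σ, hmemσ _⟩
  let c' : Qt (V := V) Ω → (L →ₗ[F] F) := fun k => (c k.rep).comp L.subtype
  have hFr : FrR ρ b' c' := by
    refine ⟨?_, ?_, ?_⟩
    · intro u k
      apply Subtype.ext
      rw [hρ]
      change b ((u • k : Qt (V := V) Ω).rep) * σ = α u * (b k.rep * σ)
      obtain ⟨v, hv⟩ : ∃ v : V, ((1, v) : V × V) • (((u, 1) : V × V) • k.rep) =
          (u • k : Qt (V := V) Ω).rep := by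
        apply qmk_eq.1
        rw [Qt.mk_rep, hact, ← smul_qmk, Qt.mk_rep]
      rw [← hv, hbσ, hf.1]
      change α u * (b k.rep * α 1⁻¹) * σ = _
      rw [inv_one, map_one, mul_one, mul_assoc]
    · intro u k l
      change c ((u • k : Qt (V := V) Ω).rep) ((ρ u l : L) : A) = c k.rep (l : A)
      obtain ⟨v, hv⟩ : ∃ v : V, ((1, v) : V × V) • (((u, 1) : V × V) • k.rep) =
          (u • k : Qt (V := V) Ω).rep := by
        apply qmk_eq.1
        rw [Qt.mk_rep, hact, ← smul_qmk, Qt.mk_rep]
      rw [← hv, hcv _ _ _ (ρ u l).2, hρ]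
      have h1 := hf.2.1 ((u, 1) : V × V) k.rep (l : A)
      rw [← h1]
      congr 1
      change α u * (l : A) = α u * ((l : A) * α 1⁻¹)
      rw [inv_one, map_one, mul_one]
    · intro l
      apply Subtype.ext
      rw [AddSubmonoidClass.coe_finsetSum]
      change ∑ k : Qt (V := V) Ω, c k.rep (l : A) • (b k.rep * σ) = (l : A)
      have h1 := hf.2.2 (l : A)
      have h2 : ∑ k : Qt (V := V) Ω, ∑ v : V,
          c (H21.DRF.pt (k, v)) (l : A) • b (H21.DRF.pt (k, v)) = ∑ ω, c ω (l : A) • b ω := by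
        rw [← Fintype.sum_prod_type']
        exact Fintype.sum_bijective _ (H21.DRF.pt_bij hfree) _ _ fun p => rfl
      rw [h1] at h2
      conv_rhs => rw [← h2]
      refine Finset.sum_congr rfl fun k _ => ?_
      have h3 : ∀ v : V, c (H21.DRF.pt (k, v)) (l : A) • b (H21.DRF.pt (k, v)) =
          c k.rep (l : A) • (b k.rep * α v) := by
        intro v
        change c (((1, v⁻¹) : V × V) • k.rep) (l : A) • b (((1, v⁻¹) : V × V) • k.rep) = _
        rw [hcv _ _ _ l.2, hf.1]
        change _ • (α 1 * (b k.rep * α (v⁻¹)⁻¹)) = _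
        rw [map_one, one_mul, inv_inv]
      rw [Finset.sum_congr rfl fun v _ => h3 v, ← Finset.smul_sum, ← Finset.mul_sum]
  have hPS : PFC.PS (fun _ => True) ρ :=
    ⟨Qt (V := V) Ω, inferInstance, actV, b', c', hFr, fun _ => trivial⟩
  -- the form on `L`
  have hlv : ∀ (u : V) (l : L), lam ((ρ u l : L) : A) = lam (l : A) := by
    intro u l
    rw [hρ, hRF.sym]
    exact congrArg lam ((hL l).1 l.2 u)
  have hlv' : ∀ (u : V) (l : L), (lam.comp L.subtype) (ρ u l) = (lam.comp L.subtype) l := hlv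
  have hBK : ∀ l ∈ BKR ρ ⊤, lam (l : A) = 0 := by
    intro l hl
    have h1 : BKR ρ ⊤ ≤ LinearMap.ker (lam.comp L.subtype) := by
      apply Submodule.span_le.2
      rintro n ⟨P', S, m, hlt, hS, -, rfl⟩
      change (lam.comp L.subtype) (∑ x ∈ S, ρ x m) = 0
      rw [map_sum, Finset.sum_congr rfl fun x _ => hlv' x m, Finset.sum_const, nsmul_eq_mul,
        H21.LMB.tv_zero ℓ hℓ (hp.to_subgroup ⊤) hlt hS, zero_mul]
    exact h1 hl
  let mσ : A →ₗ[F] L :=
    { toFun := fun a => ⟨a * σ, hmemσ a⟩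
      map_add' := fun a b => Subtype.ext (add_mul _ _ _)
      map_smul' := fun t a => Subtype.ext (smul_mul_assoc _ _ _) }
  have hmσ : ∀ (h : V) (m : A), mσ (cw F α h m) = ρ h (mσ m) := by
    intro h m
    apply Subtype.ext
    change (α h * (m * α h⁻¹)) * σ = α h * (m * σ)
    rw [mul_assoc, mul_assoc, hvσ]
  have hfixσ : ∀ (t : F), t • (mσ 1) ∈ FxR ρ ⊤ := by
    intro t h _
    rw [map_smul]
    congr 1
    apply Subtype.ext
    rw [hρ]
    change α h * (1 * σ) = 1 * σ
    rw [one_mul, hvσ]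
  have hIs : PFC.IsBQ ρ ⊤ (lam.comp L.subtype) := by
    constructor
    · intro m hm
      constructor
      · intro h0
        change lam (m : A) = 0 at h0
        change m ∈ BKR ρ ⊤
        obtain ⟨-, h2⟩ := @frb_ ℓ _ F V L (Qt (V := V) Ω) _ _ _ _ _ actV ρ b' c' ⊤ hℓ
          (hp.to_subgroup ⊤) inferInstance hFr
        have h3 := h2 m hm
        -- the fixed orbits
        have h4 : ∀ k : Qt (V := V) Ω, (∀ u : V, u • k = k) →
            ∃ t : F, b' k - t • mσ 1 ∈ BKR ρ ⊤ := by
          intro k hk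
          have h5 : b k.rep ∈ FxR (cw F α) ⊤ := by
            obtain ⟨S, hS⟩ := hs k.rep
            intro u _
            have h6 : qmk (V := V) (((u, 1) : V × V) • k.rep) = qmk k.rep := by
              rw [← smul_qmk, Qt.mk_rep]
              exact hk u
            obtain ⟨v, hv⟩ := qmk_eq.1 h6
            have h7 : ((u, v) : V × V) • k.rep = k.rep := by
              have e : ((u, v) : V × V) = (1, v) * (u, 1) := by
                rw [Prod.mk_mul_mk, one_mul, mul_one]
              rw [e, ← smul_smul]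
              exact hv
            have h8 : ((u, v) : V × V) ∈ MulAction.stabilizer (V × V) k.rep := h7
            rw [hS, tw_one_mem] at h8
            obtain ⟨rfl, -⟩ := h8
            change bw F α (u, u) (b k.rep) = b k.rep
            rw [← hf.1, h7]
          obtain ⟨d, hd⟩ := hA.spn _ h5
          have h6 := BKR_hom (L := mσ) hmσ hd
          refine ⟨∑ u, d u, ?_⟩
          have h7 : mσ (b k.rep - ∑ u, d u • α u) = b' k - (∑ u, d u) • mσ 1 := by
            rw [map_sub, map_sum, Finset.sum_smul]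
            congr 1
            refine Finset.sum_congr rfl fun u _ => ?_
            rw [map_smul]
            congr 1
            apply Subtype.ext
            change α u * σ = 1 * σ
            rw [one_mul, hvσ]
          rw [h7] at h6
          exact h6
        have h5 : ∀ k : Fp (Qt (V := V) Ω) (⊤ : Subgroup V),
            ∃ t : F, b' k.1 - t • mσ 1 ∈ BKR ρ ⊤ :=
          fun k => h4 k.1 (fun u => k.2 (Subgroup.mem_top u))
        choose t ht using h5
        have h6 : ∑ k : Fp (Qt (V := V) Ω) (⊤ : Subgroup V), c' k.1 m • b' k.1 -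
            (∑ k : Fp (Qt (V := V) Ω) (⊤ : Subgroup V), c' k.1 m * t k) • mσ 1 ∈
            BKR ρ ⊤ := by
          rw [Finset.sum_smul, ← Finset.sum_sub_distrib]
          refine Submodule.sum_mem _ fun k _ => ?_
          have e : c' k.1 m • b' k.1 - (c' k.1 m * t k) • mσ 1 =
              c' k.1 m • (b' k.1 - t k • mσ 1) := by
            rw [smul_sub, mul_smul]
          rw [e]
          exact Submodule.smul_mem _ _ (ht k)
        have h7 := Submodule.add_mem _ h3 h6
        rw [sub_add_sub_cancel] at h7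
        have h8 := hBK _ h7
        have h9 : lam ((mσ 1 : L) : A) = lam σ := by
          change lam (1 * σ) = lam σ
          rw [one_mul]
        rw [AddSubgroupClass.coe_sub, map_sub, h0, SetLike.val_smul, map_smul, h9, zero_sub,
          neg_eq_zero, smul_eq_mul, mul_eq_zero] at h8
        rcases h8 with h8 | h8
        · rw [h8, zero_smul, sub_zero] at h7
          exact h7
        · exact absurd h8 hlam
      · intro h
        exact hBK m h
    · intro t
      refine ⟨(t * (lam σ)⁻¹) • mσ 1, hfixσ _, ?_⟩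
      rw [map_smul]
      change (t * (lam σ)⁻¹) • lam (1 * σ) = t
      rw [one_mul, smul_eq_mul, mul_assoc, inv_mul_cancel₀ hlam, mul_one]
  have h := PFC.H41.dim ℓ F V L F ρ _ hPS ⊤ (hp.to_subgroup ⊤) _ hIs
  rw [h, Module.finrank_self, Nat.cast_one]

end Pool.Agent.PSS.S5.H18
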