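import Pool.Agent.PSS.StmtsS5

/-!
# Squad PSS, block S5, row NIL (helper18): the nilpotent case
-/

open scoped BigOperators TensorProduct

noncomputable section

namespace Pool.Agent.PSS.S5.H18

open Pool.Agent.PFC (tw IsTv Cnr Cz PIn Ctf Lcq PmzStmt PS bi)
open Pool.Agent.PSS.S0 (IsBQ)

section basic

variable {F V E A : Type} [Field F] [CommGroup V] [Fintype V] [Group E] [Ring A] [Algebra F A]

theorem lc_nontrivial {φ : E →* MulAut V} {α : V →* A} (h : Lc F φ α) : Nontrivial A := by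
  have h1 := h.loc
  have h2 : Nontrivial (Cz F α ⊤) := h1.toNontrivial
  obtain ⟨x, y, hxy⟩ := h2
  exact ⟨(x : A), (y : A), fun h3 => hxy (Subtype.ext h3)⟩

theorem lc_unit {φ : E →* MulAut V} {α : V →* A} (hφ : ∀ e, φ e = 1) (h : Lc F φ α) :
    Lc F (1 : Unit →* MulAut V) α := by
  refine ⟨h.fin, ?_, ?_, h.frm, h.loc, h.spn⟩
  · obtain ⟨Ω, i1, i2, b, c, hf, hs⟩ := h.per
    refine ⟨Ω, i1, i2, b, c, hf, fun ω => ?_⟩
    obtain ⟨e, S, hS⟩ := hs ω
    refine ⟨(), S, ?_⟩
    rw [hS, hφ e]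
    rfl
  · intro e
    exact ⟨1, 1, mul_one 1, mul_one 1, fun u => by rw [one_mul, mul_one]; rfl⟩

omit [Fintype V] in
theorem card_cls : Nat.card (ConjClasses (V ⋊[(1 : Unit →* MulAut V)] Unit)) = Nat.card V := by
  have hc : ∀ a b : V ⋊[(1 : Unit →* MulAut V)] Unit, a * b = b * a := by
    intro a b
    apply SemidirectProduct.ext
    · rw [SemidirectProduct.mul_left, SemidirectProduct.mul_left]
      change a.left * b.left = b.left * a.left
      exact mul_comm _ _
    · rfl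
  have h1 : Function.Bijective
      (ConjClasses.mk : V ⋊[(1 : Unit →* MulAut V)] Unit → ConjClasses _) := by
    constructor
    · intro a b hab
      rw [ConjClasses.mk_eq_mk_iff_isConj, isConj_iff] at hab
      obtain ⟨c, hc1⟩ := hab
      rw [← hc1, hc c a, mul_assoc, mul_inv_cancel, mul_one]
    · exact ConjClasses.mk_surjective
  rw [← Nat.card_congr (Equiv.ofBijective _ h1),
    Nat.card_congr SemidirectProduct.equivProd, Nat.card_prod,
    Nat.card_unique (α := Unit), mul_one]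

theorem mxl_one {φ : E →* MulAut V} {α : V →* A} (hV : Nat.card V = 1) (h : Lc F φ α) :
    Mxl F A := by
  have hs : Subsingleton V := (Nat.card_eq_one_iff_unique.1 hV).1
  have hbot : BKR (cw F α) ⊤ = ⊥ := by
    rw [BKR, Submodule.span_eq_bot]
    rintro n ⟨P', S, m, hlt, -⟩
    exfalso
    apply hlt.ne
    ext v
    rw [Subsingleton.elim v 1]
    exact ⟨fun _ => P'.one_mem |> fun _ => Subgroup.mem_top _, fun _ => P'.one_mem⟩
  have hfx : ∀ a : A, a ∈ FxR (cw F α) ⊤ := by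
    intro a
    rw [mem_cw]
    intro q _
    rw [Subsingleton.elim q 1, map_one, one_mul, mul_one]
  have hsc : ∀ a : A, ∃ t : F, algebraMap F A t = a := by
    intro a
    obtain ⟨c, hc⟩ := h.spn a (hfx a)
    rw [hbot, Submodule.mem_bot, sub_eq_zero] at hc
    refine ⟨∑ u, c u, ?_⟩
    rw [hc, Algebra.algebraMap_eq_smul_one, Finset.sum_smul]
    refine Finset.sum_congr rfl fun u _ => ?_
    rw [Subsingleton.elim u 1, map_one]
  have hnt := lc_nontrivial h
  have hbij : Function.Bijective (Algebra.ofId F A) :=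
    ⟨(algebraMap F A).injective, fun a => hsc a⟩
  let e : F ≃ₐ[F] A := AlgEquiv.ofBijective (Algebra.ofId F A) hbij
  refine ⟨1, (Algebra.ofId F (Matrix (Fin 1) (Fin 1) F)).comp (e.symm : A →ₐ[F] F), one_pos,
    ?_, ?_, ?_⟩
  · intro M
    refine ⟨e (M 0 0), ?_⟩
    rw [AlgHom.comp_apply]
    change (Algebra.ofId F (Matrix (Fin 1) (Fin 1) F)) (e.symm (e (M 0 0))) = M
    rw [AlgEquiv.symm_apply_apply, Algebra.ofId_apply]
    ext i j
    rw [Subsingleton.elim i 0, Subsingleton.elim j 0, Matrix.algebraMap_matrix_apply, if_pos rfl]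
    rfl
  · intro a ha
    have h1 : (Algebra.ofId F (Matrix (Fin 1) (Fin 1) F)) (e.symm a) = 0 := ha
    have h2 : e.symm a = 0 := by
      rw [Algebra.ofId_apply] at h1
      have h3 := congrFun (congrFun h1 0) 0
      rw [Matrix.algebraMap_matrix_apply, if_pos rfl] at h3
      exact h3
    have h4 : a = 0 := by
      rw [← AlgEquiv.apply_symm_apply e a, h2, map_zero]
    rw [h4]
    exact IsNilpotent.zero
  · rw [Nat.cast_one]
    exact one_ne_zero

theorem mxl_comp {B B' : Type} [Ring B] [Algebra F B] [Ring B'] [Algebra F B'] (p : B →ₐ[F] B')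
    (hs : Function.Surjective p) (hn : ∀ b, p b = 0 → IsNilpotent b) (h : Mxl F B') :
    Mxl F B := by
  obtain ⟨n, π, hn0, hπ, hk, hnF⟩ := h
  refine ⟨n, π.comp p, hn0, hπ.comp hs, ?_, hnF⟩
  intro b hb
  obtain ⟨N, hN⟩ := hk (p b) hb
  rw [← map_pow] at hN
  obtain ⟨M, hM⟩ := hn _ hN
  exact ⟨N * M, by rw [pow_mul, hM]⟩

omit [Fintype V] in
theorem ctf_unit {ℓ : ℕ} (hℓ : ℓ.Prime) (hp : IsPGroup ℓ V) (hV : Nat.card V ≠ 1) :
    Ctf ℓ (1 : Unit →* MulAut V) ⊥ := by
  have hnt : ∃ u : V, u ≠ 1 := by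
    by_contra h
    push Not at h
    apply hV
    have : Subsingleton V := ⟨fun a b => by rw [h a, h b]⟩
    exact Nat.card_eq_one_iff_unique.2 ⟨this, ⟨1⟩⟩
  refine ⟨hℓ, hp, ?_, ?_, ?_, ⟨⊤, isCompl_top_bot, fun _ _ _ => trivial⟩, ?_⟩
  · obtain ⟨u, hu⟩ := hnt
    exact ⟨u, fun h => hu (Subgroup.mem_bot.1 h)⟩
  · rw [Nat.card_unique]
    exact hℓ.one_lt.ne' ∘ Nat.dvd_one.1
  · intro e u hu
    rw [Subgroup.mem_bot.1 hu, map_one]
    exact Subgroup.one_mem _
  · intro e u _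
    exact Or.inl rfl

end basic

theorem nil (lcq : LcqStmt) (nqt : NqtStmt) (lqx : LqxStmt) (kln : KlnStmt) (nzs : NzsStmt)
    (ryn : RynStmt) (ndm : NdmStmt) (bqx : S0.BqxStmt) : NilStmt := by
  intro ℓ _ F V E A _ _ _ _ _ _ _ _ _ φ α hp hφ hL
  obtain ⟨m, hm⟩ : ∃ m, Nat.card V = m := ⟨_, rfl⟩
  induction m using Nat.strong_induction_on generalizing V E A with
  | _ m ih =>
    by_cases hV : Nat.card V = 1
    · exact mxl_one hV hL
    have hlc : ∀ Q : Subgroup V, ¬ Q ≤ ⊥ → ∃ n π, Lcq F α Q n π := by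
      intro Q hQ
      obtain ⟨B, _, _, αB, β, hB⟩ := bqx F V A α Q
      have hLB := lcq ℓ F V E A B φ α Q αB β ⊤ hp hL hB (fun e => by
        refine ⟨fun _ q _ => ?_, fun _ => Subgroup.mem_top e⟩
        rw [hφ e]
        rfl)
      have hcen : ∀ q ∈ Q, ∀ b, αB q * b = b * αB q := by
        intro q hq b
        obtain ⟨a, ha, rfl⟩ := hB.surj b
        have hq' : α q ∈ FxR (cw F α) Q := al_mem_cw q Q
        rw [← hB.om, ← hB.mul _ hq' _ ha, ← hB.mul _ ha _ hq', mem_cw.1 ha q hq]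
      have : Fintype Q := Fintype.ofFinite _
      have : Fintype (V ⧸ Q) := Fintype.ofFinite _
      obtain ⟨B', _, _, α', p, hps, hpn, hL'⟩ := nqt ℓ F V _ B
        (φ.comp (⊤ : Subgroup E).subtype) αB Q hp (fun e => hφ e) hLB hcen
      have hcard : Nat.card (V ⧸ Q) < m := by
        have h1 : Nat.card V = Nat.card (V ⧸ Q) * Nat.card Q :=
          Subgroup.card_eq_card_quotient_mul_card_subgroup Q
        have h2 : 1 < Nat.card Q := by
          by_contra h3
          have h4 : 0 < Nat.card Q := Nat.card_pos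
          have h5 : Nat.card Q = 1 := by omega
          exact hQ (Subgroup.card_eq_one.1 h5).le
        have h6 : 0 < Nat.card (V ⧸ Q) := Nat.card_pos
        rw [← hm, h1]
        exact lt_mul_of_one_lt_right h6 h2
      have hM := ih _ hcard (V ⧸ Q) Unit B' (1 : Unit →* MulAut (V ⧸ Q)) α'
        (hp.to_quotient Q) (fun _ => rfl) hL' rfl
      exact lqx F V A B α Q αB β hB (mxl_comp p hps hpn hM)
    have hnt := lc_nontrivial hL
    have hfin : FiniteDimensional F A := hL.fin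
    have hz := kln ℓ F V Unit A 1 α ⊥ (ctf_unit Fact.out hp hV) (lc_unit hφ hL) hlc
    rw [card_cls] at hz
    obtain ⟨lam, K, _, x, y, hRF, -⟩ := hL.frm
    obtain ⟨n, π, hn, hπ, hk⟩ := ryn F A lam hRF.sym (fun a ha => by
      rw [← hRF.e2 a]
      refine Finset.sum_eq_zero fun k _ => Finset.sum_eq_zero fun v _ => ?_
      rw [ha, zero_smul]) (nzs ℓ F V E A φ α hp hφ hL hz)
    exact ⟨n, π, hn, hπ, hk, ndm ℓ F V E A φ α hp hφ hL n π hπ hk⟩

end Pool.Agent.PSS.S5.H18
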