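import Pool.Agent.PSS.StmtsS5

/-!
# Squad PSS, block S5, row RDL (helper18): reduction to local algebras
-/

open scoped BigOperators TensorProduct

noncomputable section

namespace Pool.Agent.PSS.S5.H18

open Pool.Agent.PFC (tw IsTv Cnr Cz PIn Ctf Lcq PmzStmt PS bi)

variable {F V A B : Type} [Field F] [CommGroup V] [Ring A] [Algebra F A] [Ring B] [Algebra F B]

theorem fx_tw {α : V →* A} (W : Subgroup V) {a : A} (ha : a ∈ FxR (cw F α) ⊤) :
    a ∈ FxR (bw F α) (twW W (1 : MulAut W)) := by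
  rw [mem_tw]
  intro w
  rw [MulAut.one_apply]
  exact mem_cw.1 ha w (Subgroup.mem_top _)

theorem cen_fx {α : V →* A} {z : A} (hz : ∀ a, z * a = a * z) : z ∈ FxR (cw F α) ⊤ := by
  rw [mem_cw]
  intro q _
  exact (hz _).symm

theorem nw_finsum [Finite V] {α : V →* A} {W : Subgroup V} (N : IsNW F α W B) (b : B) :
    ∃ (_ : Fintype (MulAut W)) (f : MulAut W → A),
      (∀ ε, f ε ∈ FxR (bw F α) (twW W ε)) ∧ ∑ ε, N.β ε (f ε) = b := by
  have : Finite (MulAut W) := Finite.of_injective (fun f => (f : W → W)) DFunLike.coe_injective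
  have h2 : Fintype (MulAut W) := Fintype.ofFinite _
  obtain ⟨f, hf, hb⟩ := N.spn b
  refine ⟨h2, f, hf, ?_⟩
  rw [← finsum_eq_sum_of_fintype]
  exact hb

theorem nw_fin [Finite V] [FiniteDimensional F A] {α : V →* A} {W : Subgroup V}
    (N : IsNW F α W B) : FiniteDimensional F B := by
  have : Finite (MulAut W) := Finite.of_injective (fun f => (f : W → W)) DFunLike.coe_injective
  have h2 : Fintype (MulAut W) := Fintype.ofFinite _
  let L : (MulAut W → A) →ₗ[F] B := ∑ ε, (N.β ε).comp (LinearMap.proj ε)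
  have hL : Function.Surjective L := by
    intro b
    obtain ⟨f, _, hb⟩ := N.spn b
    refine ⟨f, ?_⟩
    rw [← hb, finsum_eq_sum_of_fintype]
    simp only [L, LinearMap.sum_apply, LinearMap.comp_apply, LinearMap.proj_apply]
  exact Module.Finite.of_surjective L hL

theorem nw_cen [Finite V] {α : V →* A} {W : Subgroup V} (N : IsNW F α W B) {z : A}
    (hz : ∀ a, z * a = a * z) (b : B) : N.β 1 z * b = b * N.β 1 z := by
  obtain ⟨_, f, hf, rfl⟩ := nw_finsum N b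
  have h1 := fx_tw W (cen_fx (F := F) (α := α) hz)
  rw [Finset.mul_sum, Finset.sum_mul]
  refine Finset.sum_congr rfl fun ε _ => ?_
  have h2 := N.mul 1 ε z h1 (f ε) (hf ε)
  have h3 := N.mul ε 1 (f ε) (hf ε) z h1
  rw [one_mul] at h2
  rw [mul_one] at h3
  rw [← h2, ← h3, hz]

theorem nw_mul {α : V →* A} {W : Subgroup V} (N : IsNW F α W B) {a b : A}
    (ha : a ∈ FxR (cw F α) ⊤) (hb : b ∈ FxR (cw F α) ⊤) :
    N.β 1 (a * b) = N.β 1 a * N.β 1 b := by
  have h := N.mul 1 1 a (fx_tw W ha) b (fx_tw W hb)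
  rw [one_mul] at h
  exact h

theorem rdl (pcx : PcxStmt) (zsm : ZsmStmt) (zcf : ZcfStmt) (coe : CoeStmt) (bpt : BptStmt)
    (rtn : RtnStmt) (cnw : CnwStmt) (clj : CljStmt) : RdlStmt := by
  intro ℓ _ F V E A B _ _ _ _ _ _ _ _ _ _ _ φ α W hp hE hW hA N H
  obtain ⟨lam, K, _, x, y, hRF, u, hu⟩ := hA.rt
  have hfA : FiniteDimensional F A := hA.fin
  have hfB : FiniteDimensional F B := nw_fin N
  obtain ⟨n, b, hb, hbo, hb1⟩ := pcx F A
  have hfx : ∀ i, b i ∈ FxR (cw F α) ⊤ := fun i => cen_fx (hb i).cen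
  have e1 := zsm F A n b (fun i => (hb i).cen) (fun i => (hb i).id) hbo hb1
  have e2 := zsm F B n (fun i => N.β 1 (b i)) (fun i a => nw_cen N (hb i).cen a)
    (fun i => by rw [← nw_mul N (hfx i) (hfx i), (hb i).id])
    (fun i k hik => by rw [← nw_mul N (hfx i) (hfx k), hbo i k hik, map_zero])
    (by rw [← map_sum, hb1, N.one])
  rw [e1, e2]
  refine Finset.sum_congr rfl fun i _ => ?_
  obtain ⟨j, c, hj, hbj, hc, hrt⟩ := bpt ℓ F V E A K φ α lam x y u hp hA hRF hu (b i) (hb i)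
  have hjv : ∀ v, α v * j = j * α v := fun v => mem_cw.1 hj.fx v (Subgroup.mem_top v)
  obtain ⟨Y, _, _, αY, κ, hY⟩ := coe F V A α j hj.id hjv
  have hj1 : N.β 1 j * N.β 1 j = N.β 1 j := by
    rw [← nw_mul N hj.fx hj.fx, hj.id]
  have hjv1 : ∀ v, N.nwh v * N.β 1 j = N.β 1 j * N.nwh v := by
    intro v
    rw [IsNW.nwh_apply, ← nw_mul N (al_mem_cw v ⊤) hj.fx, ← nw_mul N hj.fx (al_mem_cw v ⊤),
      hjv v]
  obtain ⟨Y', _, _, αY', κ', hY'⟩ := coe F V B N.nwh (N.β 1 j) hj1 hjv1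
  obtain ⟨N'⟩ := cnw F V A B Y Y' α W N j αY κ κ' hj.id hj.fx hY hY'.cnr
  have s1 : b i ∈ Submodule.span F {x : A | ∃ s t : A, x = s * j * t} := by
    rw [← hrt]
    refine Submodule.sum_mem _ fun k _ => ?_
    refine Submodule.subset_span ⟨x k, c * j * y k, ?_⟩
    simp only [mul_assoc]
  have s2 : N.β 1 (b i) ∈ Submodule.span F {x : B | ∃ s t : B, x = s * N.β 1 j * t} := by
    have hjc : j * c * j ∈ FxR (cw F α) ⊤ := by
      rw [mem_cw] at hc ⊢
      intro q hq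
      rw [← mul_assoc, ← mul_assoc, hjv q, mul_assoc j, hc q hq, mul_assoc, mul_assoc c,
        hjv q, ← mul_assoc, ← mul_assoc, mul_assoc j c j, ← mul_assoc]
    have h1 := rtn ℓ F V E A B K φ α lam x y W N hp hW hA.per hRF (j * c * j) hjc
    rw [hrt] at h1
    have hcj : j * c ∈ FxR (cw F α) ⊤ := by
      rw [mem_cw] at hc ⊢
      intro q hq
      rw [← mul_assoc, hjv q, mul_assoc, hc q hq, mul_assoc]
    have h2 : N.β 1 (j * c * j) = N.β 1 j * N.β 1 c * N.β 1 j := by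
      rw [nw_mul N hcj hj.fx, nw_mul N hj.fx hc]
    refine Submodule.span_mono ?_ h1
    rintro w ⟨s, t, rfl⟩
    refine ⟨s, N.β 1 c * N.β 1 j * t, ?_⟩
    rw [h2]
    simp only [mul_assoc]
  rw [zcf F A Y (b i) j κ hY.cnr (hb i).cen (hb i).id hbj s1,
    zcf F B Y' (N.β 1 (b i)) (N.β 1 j) κ' hY'.cnr (fun a => nw_cen N (hb i).cen a)
      (by rw [← nw_mul N (hfx i) (hfx i), (hb i).id])
      (by rw [← nw_mul N (hfx i) hj.fx, hbj]) s2]
  have hle : Ej φ αY ≤ φ.range := fun s hs => hs.1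
  exact H (Ej φ αY) Y Y' _ _ _ _ αY hle (clj ℓ F V E A Y φ α j αY κ hp hE hA hj hY) N'

end Pool.Agent.PSS.S5.H18
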