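import Pool.Agent.PSS.StmtsS5

/-!
# Squad PSS, block S5, row TPL (helper18)
-/

open scoped BigOperators TensorProduct

noncomputable section

namespace Pool.Agent.PSS.S5.H18

section loc

variable {F B : Type} [Field F] [Ring B] [Algebra F B] {j : B}

theorem tpl_pow {n m : B} (h2 : n * j = n) (k : ℕ) :
    n * (j * m * n) ^ k * j = n * (j * m * n) ^ k := by
  cases k with
  | zero => rw [pow_zero, mul_one, h2]
  | succ k =>
    rw [pow_succ]
    simp only [mul_assoc]
    rw [h2]

theorem tpl_pow2 {n m : B} (h2 : n * j = n) (k : ℕ) :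
    n * (m * n) ^ k = n * (j * m * n) ^ k := by
  induction k with
  | zero => rw [pow_zero, pow_zero]
  | succ k ih =>
    rw [pow_succ, ← mul_assoc, ih, pow_succ, ← mul_assoc]
    conv_lhs => rw [← tpl_pow h2 k]
    simp only [mul_assoc]

theorem tpl_pow3 {n m : B} (k : ℕ) : (n * m) ^ (k + 1) = n * (m * n) ^ k * m := by
  induction k with
  | zero => rw [zero_add, pow_one, pow_zero, mul_one]
  | succ k ih =>
    rw [pow_succ, ih, pow_succ (m * n)]
    simp only [mul_assoc]

theorem tpl_nil (hj0 : j ≠ 0) (hloc : ∀ a : B, IsNilpotent (j * a * j) ∨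
    ∃ a', j * a * j * (j * a' * j) = j ∧ j * a' * j * (j * a * j) = j)
    {n : B} (h1 : j * n = n) (h2 : n * j = n) (hn : IsNilpotent n) (m : B) :
    IsNilpotent (n * m) := by
  have e1 : j * (m * n) * j = j * m * n := by
    rw [mul_assoc, mul_assoc m, h2, ← mul_assoc]
  rcases hloc (m * n) with ⟨k, hk⟩ | ⟨a', -, ha'⟩
  · rw [e1] at hk
    exact ⟨k + 1, by rw [tpl_pow3, tpl_pow2 h2, hk, mul_zero, zero_mul]⟩
  · exfalso
    rw [e1] at ha'
    have ht : (j * a' * j * (j * m)) * n = j := by
      rw [mul_assoc]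
      exact ha'
    obtain ⟨k, hk⟩ := hn
    apply hj0
    have hpow : ∀ k : ℕ, j * n ^ (k + 1) = n ^ (k + 1) := by
      intro k
      rw [pow_succ', ← mul_assoc, h1]
    have key : ∀ k : ℕ, n ^ k = 0 → j = 0 := by
      intro k
      induction k with
      | zero =>
        intro h
        rw [pow_zero] at h
        rw [← mul_one j, h, mul_zero]
      | succ k ih =>
        intro h
        have h3 : j * n ^ k = 0 := by
          conv_lhs => rw [← ht]
          rw [mul_assoc _ n, ← pow_succ', h, mul_zero]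
        cases k with
        | zero =>
          rw [pow_zero, mul_one] at h3
          exact h3
        | succ k =>
          rw [hpow] at h3
          exact ih h3
    exact key k hk

end loc

theorem tpl (sgn : SgnStmt) (nak : NakStmt) : TplStmt := by
  intro ℓ _ F V B K _ _ _ _ _ _ _ _ _ α lam x y u j hp hc hRF hu hid hj0 hloc
  classical
  set σ : B := ∑ v, α v with hσ
  have hcσ : ∀ b, σ * b = b * σ := by
    intro b
    rw [hσ, Finset.sum_mul, Finset.mul_sum]
    exact Finset.sum_congr rfl fun v _ => hc v b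
  -- the corner
  let D : Submodule F B :=
    { carrier := {d | j * d = d ∧ d * j = d}
      add_mem' := by
        rintro a b ⟨h1, h2⟩ ⟨h3, h4⟩
        exact ⟨by rw [mul_add, h1, h3], by rw [add_mul, h2, h4]⟩
      zero_mem' := ⟨mul_zero j, zero_mul j⟩
      smul_mem' := by
        rintro t a ⟨h1, h2⟩
        exact ⟨by rw [mul_smul_comm, h1], by rw [smul_mul_assoc, h2]⟩ }
  have hD : ∀ d : B, d ∈ D ↔ j * d = d ∧ d * j = d := fun d => Iff.rfl
  have hjD : j ∈ D := ⟨hid, hid⟩
  have hjaj : ∀ a : B, j * a * j ∈ D := by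
    intro a
    refine ⟨?_, ?_⟩
    · rw [← mul_assoc, ← mul_assoc, hid]
    · rw [mul_assoc, hid]
  have hvD : ∀ v, ∀ d ∈ D, α v * d ∈ D := by
    rintro v d ⟨h1, h2⟩
    refine ⟨?_, ?_⟩
    · rw [← mul_assoc, ← hc v j, mul_assoc, h1]
    · rw [mul_assoc, h2]
  -- nilpotent elements of `D`
  have hnil : ∀ n ∈ D, IsNilpotent n → σ * n = 0 := by
    intro n hn hni
    exact sgn F V B K α lam x y u n hc hRF hu (fun m => tpl_nil hj0 hloc hn.1 hn.2 hni m)
  -- eigenvalues
  have heig : ∀ d ∈ D, ∃ t : F, IsNilpotent (d - t • j) := by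
    intro d hd
    by_contra hcon
    push Not at hcon
    let L : D →ₗ[F] D :=
      { toFun := fun z => ⟨d * z, by
          refine ⟨?_, ?_⟩
          · rw [← mul_assoc, hd.1]
          · rw [mul_assoc, z.2.2]⟩
        map_add' := fun a b => Subtype.ext (mul_add _ _ _)
        map_smul' := fun t a => Subtype.ext (mul_smul_comm _ _ _) }
    have hnt : Nontrivial D := ⟨⟨⟨0, D.zero_mem⟩, ⟨j, hjD⟩, fun h => by
      apply hj0
      exact (congrArg Subtype.val h).symm⟩⟩
    obtain ⟨t, ht⟩ := Module.End.exists_eigenvalue (K := F) (V := D) L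
    obtain ⟨z, hz⟩ := ht.exists_hasEigenvector
    have hz1 : d * (z : B) = t • (z : B) := congrArg Subtype.val hz.apply_eq_smul
    have hz0 : (z : B) ≠ 0 := fun h => hz.2 (Subtype.ext h)
    have e1 : j * (d - t • (1 : B)) * j = d - t • j := by
      rw [mul_sub, sub_mul, hd.1, hd.2, mul_smul_comm, mul_one, smul_mul_assoc, hid]
    rcases hloc (d - t • (1 : B)) with h1 | ⟨a', -, h2⟩
    · rw [e1] at h1
      exact hcon t h1
    · rw [e1] at h2
      apply hz0
      have h3 : (d - t • j) * (z : B) = 0 := by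
        rw [sub_mul, hz1, smul_mul_assoc, z.2.1, sub_self]
      rw [← z.2.1, ← h2, mul_assoc, h3, mul_zero]
  -- the projection
  let h : B →ₗ[F] B :=
    ∑ k, (lam.comp (LinearMap.mulLeft F (y k))).smulRight (j * x k * j)
  have hh : ∀ b, h b = ∑ k, lam (y k * b) • (j * x k * j) := by
    intro b
    simp only [h, LinearMap.sum_apply, LinearMap.smulRight_apply, LinearMap.comp_apply,
      LinearMap.mulLeft_apply]
  have hhD : ∀ b, h b ∈ D := by
    intro b
    rw [hh]
    exact Submodule.sum_mem _ fun k _ => Submodule.smul_mem _ _ (hjaj _)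
  have hdec : ∀ d ∈ D, d = ∑ v, α v * h (α v⁻¹ * d) := by
    intro d hd
    have h1 : j * d * j = d := by rw [hd.1, hd.2]
    conv_lhs => rw [← h1, ← hRF.e1 d]
    rw [Finset.mul_sum, Finset.sum_mul]
    have h2 : ∀ k, j * (∑ v, lam (α v⁻¹ * y k * d) • (x k * α v)) * j =
        ∑ v, α v * (lam (y k * (α v⁻¹ * d)) • (j * x k * j)) := by
      intro k
      rw [Finset.mul_sum, Finset.sum_mul]
      refine Finset.sum_congr rfl fun v _ => ?_
      rw [hc v⁻¹ (y k), mul_assoc (y k), mul_smul_comm, smul_mul_assoc, mul_smul_comm]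
      congr 1
      rw [← hc v (x k), ← mul_assoc, ← hc v j]
      simp only [mul_assoc]
    rw [Finset.sum_congr rfl fun k _ => h2 k, Finset.sum_comm]
    refine Finset.sum_congr rfl fun v _ => ?_
    rw [hh, Finset.mul_sum]
  have hsum : ∀ d, ∑ v, α v⁻¹ * d = σ * d := by
    intro d
    rw [hσ, Finset.sum_mul]
    exact Fintype.sum_equiv (Equiv.inv V) _ _ fun v => rfl
  let ρ : V →* (B →ₗ[F] B) :=
    { toFun := fun v => LinearMap.mulLeft F (α v)
      map_one' := by
        ext b
        rw [map_one, LinearMap.mulLeft_apply, one_mul]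
        rfl
      map_mul' := fun a b => by
        ext c
        rw [map_mul, LinearMap.mulLeft_apply, mul_assoc]
        rfl }
  have hρ : ∀ v b, ρ v b = α v * b := fun v b => rfl
  have hker : ∀ d ∈ D, σ * d = 0 →
      d ∈ Submodule.span F {z : B | ∃ v, ∃ d ∈ D, z = ρ v d - d} := by
    intro d hd h0
    have h1 : d = ∑ v, (ρ v (h (α v⁻¹ * d)) - h (α v⁻¹ * d)) := by
      rw [Finset.sum_sub_distrib, ← map_sum, hsum, h0, map_zero, sub_zero]
      exact hdec d hd
    rw [h1]
    exact Submodule.sum_mem _ fun v _ => Submodule.subset_span ⟨v, _, hhD _, rfl⟩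
  have hσn : ∀ d ∈ D, ∃ t : F, σ * (d - t • j) = 0 := by
    intro d hd
    obtain ⟨t, ht⟩ := heig d hd
    exact ⟨t, hnil _ (Submodule.sub_mem _ hd (Submodule.smul_mem _ _ hjD)) ht⟩
  -- first claim
  let D' : Submodule F B := Submodule.span F (Set.range fun v => α v * j)
  have hjD' : j ∈ D' := by
    refine Submodule.subset_span ⟨1, ?_⟩
    change α 1 * j = j
    rw [map_one, one_mul]
  have hD'st : ∀ v, ∀ m ∈ D', ρ v m ∈ D' := by
    intro v m hm
    have h1 : D' ≤ D'.comap (ρ v) := by
      apply Submodule.span_le.2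
      rintro _ ⟨w, rfl⟩
      refine Submodule.subset_span ⟨v * w, ?_⟩
      change α (v * w) * j = α v * (α w * j)
      rw [map_mul, mul_assoc]
    exact h1 hm
  have hDD : D ≤ D' := by
    refine nak ℓ F V B ρ D D' hp (fun v m hm => hvD v m hm) hD'st ?_
    intro m hm
    obtain ⟨t, ht⟩ := hσn m hm
    exact ⟨t • j, Submodule.smul_mem _ _ hjD',
      hker _ (Submodule.sub_mem _ hm (Submodule.smul_mem _ _ hjD)) ht⟩
  refine ⟨?_, ?_⟩
  · intro a
    have h1 := hDD (hjaj a)
    rw [Submodule.mem_span_range_iff_exists_fun] at h1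
    obtain ⟨c, hc1⟩ := h1
    exact ⟨c, hc1.symm⟩
  · -- second claim
    have hσj : σ * j ≠ 0 := by
      intro h0
      have h1 : D ≤ ⊥ := by
        refine nak ℓ F V B ρ D ⊥ hp (fun v m hm => hvD v m hm) (fun v m hm => ?_) ?_
        · rw [Submodule.mem_bot] at hm
          rw [hm, map_zero]
          exact Submodule.zero_mem _
        · intro m hm
          refine ⟨0, Submodule.zero_mem _, ?_⟩
          rw [sub_zero]
          refine hker m hm ?_
          rw [← hm.1, ← mul_assoc, h0, zero_mul]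
      exact hj0 ((Submodule.mem_bot F).1 (h1 hjD))
    intro hl
    apply hσj
    have hall : ∀ m, lam (σ * j * m) = 0 := by
      intro m
      obtain ⟨t, ht⟩ := hσn _ (hjaj m)
      have e1 : σ * (j * m * j) = t • (σ * j) := by
        rw [mul_sub, sub_eq_zero] at ht
        rw [ht, mul_smul_comm]
      calc lam (σ * j * m) = lam (σ * j * (j * m)) := by
            rw [← mul_assoc, mul_assoc σ j j, hid]
        _ = lam (j * m * (σ * j)) := hRF.sym _ _
        _ = lam (σ * (j * m * j)) := by
            rw [← mul_assoc, ← hcσ (j * m)]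
            rw [mul_assoc σ]
        _ = 0 := by rw [e1, map_smul, hl, smul_zero]
    rw [← hRF.e2 (σ * j)]
    refine Finset.sum_eq_zero fun k _ => Finset.sum_eq_zero fun v _ => ?_
    rw [hall, zero_smul]

end Pool.Agent.PSS.S5.H18
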